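import Pool.Agent.Lib_helper52.YG.Defs

/-!
# Project LQ (MP_70a3e9_pr, S19397): definitions

`Nc`: laws with bounded density and bounded support. `Sp L`: moreover in the cube of half side `L`.
`tl`: change of a law by a density. `Rg α γ k κ`: `κ` is the conditional expectation of `k(Z)` given
`X + Z`, `X ∼ α`, `Z ∼ γ` independent. `ad`: conditional expectation given `Z` of a function of
`X + Z`. `SS`: the functional, `VV` its infimum over the law of `Z`, `va` variance of a coordinate.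
-/

set_option autoImplicit false

namespace Pool.Agent.LQ

open MeasureTheory ENNReal Pool.Agent.EPS Pool.Agent.YG

/-- the space -/
abbrev Eu (d : ℕ) : Type := EuclideanSpace ℝ (Fin d)

variable {d : ℕ}

/-- bounded measurable functions -/
def Bm (f : Eu d → ℝ) : Prop := Measurable f ∧ ∃ C : ℝ, ∀ x, |f x| ≤ C

/-- probability measures with bounded density and bounded support -/
def Nc (μ : Measure (Eu d)) : Prop :=
  IsProbabilityMeasure μ ∧ (∃ R : ℝ, ∀ᵐ x ∂μ, ‖x‖ ≤ R) ∧
    ∃ M : NNReal, μ ≤ (M : ℝ≥0∞) • (volume : Measure (Eu d))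

/-- moreover concentrated on the cube of half side `L` -/
def Sp (L : ℝ) (μ : Measure (Eu d)) : Prop := Nc μ ∧ ∀ᵐ x ∂μ, ∀ j, |x j| ≤ L

/-- the measure with density `f` with respect to `μ` -/
noncomputable def tl (μ : Measure (Eu d)) (f : Eu d → ℝ) : Measure (Eu d) :=
  μ.withDensity (fun x => ENNReal.ofReal (f x))

/-- `κ (X + Z)` is the conditional expectation of `k Z` given `X + Z` -/
structure Rg (α γ : Measure (Eu d)) (k κ : Eu d → ℝ) : Prop where
  meas : Measurable κ
  bd : ∀ M : ℝ, (∀ z, |k z| ≤ M) → ∀ u, |κ u| ≤ M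
  eq : ∀ h : Eu d → ℝ, Bm h →
    ∫ p, k p.2 * h (p.1 + p.2) ∂(α.prod γ) = ∫ u, κ u * h u ∂(α.conv γ)

/-- the conditional expectation of `κ (X + Z)` given `Z` -/
noncomputable def ad (α : Measure (Eu d)) (κ : Eu d → ℝ) (z : Eu d) : ℝ := ∫ x, κ (x + z) ∂α

/-- the coordinate, clipped to `[-L, L]` -/
noncomputable def cl (L : ℝ) (j : Fin d) (x : Eu d) : ℝ := max (-L) (min L (x j))

/-- the clipped coordinate, centred -/
noncomputable def co (L : ℝ) (μ : Measure (Eu d)) (j : Fin d) (x : Eu d) : ℝ :=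
  cl L j x - ∫ y, cl L j y ∂μ

/-- `(1 + t) log (1 + t) + (1 - t) log (1 - t)` -/
noncomputable def eta (t : ℝ) : ℝ := (1 + t) * Real.log (1 + t) + (1 - t) * Real.log (1 - t)

/-- the functional `h(X+Z) + h(Y+Z) - θ (h(X+Y+Z) + h(Z)) - (1-θ) (h(X) + h(Y))` -/
noncomputable def SS (θ : ℝ) (α β γ : Measure (Eu d)) : ℝ :=
  ent (α.conv γ) + ent (β.conv γ) - θ * (ent ((α.conv β).conv γ) + ent γ) -
    (1 - θ) * (ent α + ent β)

/-- its infimum over the law of `Z` -/
noncomputable def VV (θ L : ℝ) (α β : Measure (Eu d)) : ℝ :=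
  sInf {s : ℝ | ∃ γ : Measure (Eu d), Sp L γ ∧ s = SS θ α β γ}

/-- variance of a coordinate -/
noncomputable def va (μ : Measure (Eu d)) (j : Fin d) : ℝ :=
  ∫ x, (x j) ^ 2 ∂μ - (∫ x, x j ∂μ) ^ 2

end Pool.Agent.LQ
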